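import Pool.Agent.W221.NS.Stm3

/-! Separated sets and Minkowski content (project MF of helper221). -/

open MeasureTheory Set Filter Metric Topology
open scoped ENNReal

namespace Pool.Agent.W591.MF

open W221.NS

/-- A maximal separated set. -/
theorem cover {Z : Set (Fin 3 → ℝ)} {r N : ℝ} (hr : 0 < r)
    (h : ∀ S : Finset (Fin 3 → ℝ), (∀ x ∈ S, x ∈ Z) →
      (∀ x ∈ S, ∀ y ∈ S, x ≠ y → r ≤ ‖x - y‖) → (S.card : ℝ) ≤ N) :
    ∃ F : Finset (Fin 3 → ℝ), (F.card : ℝ) ≤ N ∧ ∀ x ∈ Z, ∃ y ∈ F, dist x y < r := by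
  classical
  let P : ℕ → Prop := fun n => ∃ S : Finset (Fin 3 → ℝ), S.card = n ∧ (∀ x ∈ S, x ∈ Z) ∧
    (∀ x ∈ S, ∀ y ∈ S, x ≠ y → r ≤ ‖x - y‖)
  have hP0 : P 0 := ⟨∅, rfl, by simp, by simp⟩
  have hb : ∀ n, P n → n ≤ ⌊N⌋₊ := by
    rintro n ⟨S, rfl, h1, h2⟩
    exact Nat.le_floor (h S h1 h2)
  obtain ⟨S, hcard, h1, h2⟩ := Nat.findGreatest_spec (P := P) (Nat.zero_le ⌊N⌋₊) hP0
  refine ⟨S, h S h1 h2, fun x hx => ?_⟩
  by_contra hcon
  push Not at hcon
  have hxS : x ∉ S := fun hxS => by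
    have := hcon x hxS
    rw [dist_self] at this
    linarith
  have hnew : P (S.card + 1) := by
    refine ⟨insert x S, Finset.card_insert_of_notMem hxS, ?_, ?_⟩
    · intro y hy
      rcases Finset.mem_insert.1 hy with rfl | hy
      · exact hx
      · exact h1 y hy
    · intro y hy z hz hyz
      rcases Finset.mem_insert.1 hy with hy' | hy'
      · rcases Finset.mem_insert.1 hz with hz' | hz'
        · exact absurd (hy'.trans hz'.symm) hyz
        · rw [hy', ← dist_eq_norm]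
          exact hcon z hz'
      · rcases Finset.mem_insert.1 hz with hz' | hz'
        · rw [hz', ← dist_eq_norm, dist_comm]
          exact hcon y hy'
        · exact h2 y hy' z hz' hyz
  have h3 := Nat.le_findGreatest (P := P) (hb _ hnew) hnew
  omega

theorem t_MINK : S_MINK := by
  intro Z hZ
  rw [ENNReal.tendsto_nhds_zero]
  intro e he
  rcases eq_or_ne e ⊤ with rfl | he'
  · exact Eventually.of_forall fun _ => le_top
  have hpos : 0 < e.toReal := ENNReal.toReal_pos he.ne' he'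
  obtain ⟨r₀, hr₀, H⟩ := hZ (e.toReal / 64) (by positivity)
  have hev : ∀ᶠ r : ℝ in 𝓝[>] 0, r < r₀ :=
    mem_nhdsWithin_of_mem_nhds (Iio_mem_nhds hr₀)
  filter_upwards [hev, self_mem_nhdsWithin] with r hr1 hr0
  have hr0' : (0 : ℝ) < r := hr0
  obtain ⟨F, hF1, hF2⟩ := cover (Z := Z) (N := e.toReal / 64 / r) hr0' (fun S h1 h2 => by
    rw [le_div_iff₀ hr0']
    exact H r hr0' hr1 S h1 h2)
  have hsub : thickening r Z ⊆ ⋃ y ∈ F, ball y (2 * r) := by
    intro x hx
    obtain ⟨z, hz, hxz⟩ := mem_thickening_iff.1 hx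
    obtain ⟨y, hy, hzy⟩ := hF2 z hz
    rw [mem_iUnion₂]
    refine ⟨y, hy, ?_⟩
    rw [mem_ball]
    calc dist x y ≤ dist x z + dist z y := dist_triangle _ _ _
      _ < 2 * r := by linarith
  refine ENNReal.div_le_of_le_mul ?_
  calc volume (thickening r Z) ≤ volume (⋃ y ∈ F, ball y (2 * r)) := measure_mono hsub
    _ ≤ ∑ y ∈ F, volume (ball y (2 * r)) := measure_biUnion_finset_le _ _
    _ = ∑ _y ∈ F, ENNReal.ofReal ((2 * (2 * r)) ^ 3) := by
        refine Finset.sum_congr rfl fun y _ => ?_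
        rw [Real.volume_pi_ball y (by positivity), Fintype.card_fin]
    _ = ENNReal.ofReal (F.card * (2 * (2 * r)) ^ 3) := by
        rw [Finset.sum_const, nsmul_eq_mul, ENNReal.ofReal_mul (by positivity),
          ENNReal.ofReal_natCast]
    _ ≤ ENNReal.ofReal (e.toReal * r ^ 2) := by
        refine ENNReal.ofReal_le_ofReal ?_
        rw [le_div_iff₀ hr0'] at hF1
        have h5 : 0 < r ^ 2 := by positivity
        have h6 : (F.card : ℝ) * (2 * (2 * r)) ^ 3 = 64 * (F.card * r) * r ^ 2 := by ring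
        rw [h6]
        refine mul_le_mul_of_nonneg_right ?_ h5.le
        linarith
    _ = e * ENNReal.ofReal (r ^ 2) := by
        rw [ENNReal.ofReal_mul hpos.le, ENNReal.ofReal_toReal he']

end Pool.Agent.W591.MF
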